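import Mathlib
import Pool.Agent.H321R3.HermDef

set_option autoImplicit false

namespace Pool.Agent.Y934.BEF

open Filter Topology Pool.Agent.H321R3.Herm

/-- The union of the cosets `(x i, ω i) + (A ℤ × B ℤ)`. -/
def cos2 {ι : Type} (A B : ℝ) (x ω : ι → ℝ) : Set (ℝ × ℝ) :=
  ⋃ i, Set.range (fun p : ℤ × ℤ => (x i + p.1 * A, ω i + p.2 * B))

/-- The function `P(t) e^{-π t²}`. -/
noncomputable def gw (P : Polynomial ℝ) (t : ℝ) : ℝ := P.eval t * Real.exp (-(Real.pi * t ^ 2))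

/-- The transform of the weighted comb `∑ c_m δ_{mg}` with window `w`, as a function of the
position `x` and the normalised frequency `θ` (the frequency times `g`). -/
noncomputable def V (w : ℝ → ℝ) (c : ℤ → ℝ) (g x θ : ℝ) : ℂ :=
  ∑' m : ℤ, ((c m * w (m * g - x) : ℝ) : ℂ) *
    Complex.exp (-(2 * (Real.pi : ℂ) * Complex.I * ((θ : ℂ) * (m : ℂ))))

/-- The weights `e^{-π κ_m g²}` for `m ∈ S`, and `0` outside `S`. -/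
noncomputable def cw (S : Set ℤ) (κ : ℤ → ℝ) (g : ℝ) (m : ℤ) : ℝ :=
  S.indicator (fun l => Real.exp (-(Real.pi * κ l * g ^ 2))) m

/-- BEF-NF: the frame property fails over the zeros of the transform of a periodic comb. -/
def NFStm : Prop :=
  ∀ (ι : Type) [Fintype ι] (w : ℝ → ℝ) (_ : Continuous w) (C : ℝ)
    (_ : ∀ t, |w t| ≤ C * (1 / (1 + |t|) ^ 3)) (g : ℝ) (_ : 0 < g) (q : ℕ) (_ : 0 < q)
    (c : ℤ → ℝ) (_ : ∀ m, c (m + q) = c m) (_ : ∀ m, 0 ≤ c m) (_ : c 0 = 1) (x ω : ι → ℝ)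
    (_ : ∀ i, V w c g (x i) (ω i * g) = 0),
    ¬ IsGaborFrame (fun t => ((w t : ℝ) : ℂ)) (cos2 (q * g) (1 / g) x ω)

/-- BEF-DENS: separation and density of a union of disjoint cosets. -/
def DensStm : Prop :=
  ∀ (ι : Type) [Fintype ι] (A B : ℝ) (_ : 0 < A) (_ : 0 < B) (x ω : ι → ℝ)
    (_ : ∀ i j : ι, i ≠ j → ∀ k l : ℤ, x i - x j = k * A → ω i - ω j = l * B → False),
    IsSeparatedSet (cos2 A B x ω) ∧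
      lowerBeurlingDensity (cos2 A B x ω) = (Fintype.card ι : ℝ) / (A * B)

/-- BEF-RATIO: near the position `y g` every term other than those of `k` and `j` is together
at most a quarter of the term of `j`, if `κ_j + (j-y)²` is smaller than all `κ_l + (l-y)²`. -/
def RatioStm : Prop :=
  ∀ (P : Polynomial ℝ) (_ : P ≠ 0) (S : Set ℤ) (κ : ℤ → ℝ) (_ : ∀ m, 0 ≤ κ m) (y : ℝ) (k j : ℤ)
    (_ : j ∈ S) (_ : (j : ℝ) ≠ y)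
    (_ : ∀ l ∈ S, l ≠ k → l ≠ j → κ j + (j - y) ^ 2 < κ l + (l - y) ^ 2) (U : ℝ),
    ∀ᶠ g : ℝ in atTop, ∀ u : ℝ, |u| ≤ U → gw P (j * g - (y * g + u)) ≠ 0 ∧
      (Summable fun l : ℤ => |cw S κ g l * gw P (l * g - (y * g + u))|) ∧
      ∑' l : ℤ, (if l = k ∨ l = j then 0 else |cw S κ g l * gw P (l * g - (y * g + u))|) ≤
        |cw S κ g j * gw P (j * g - (y * g + u))| / 4

/-- BEF-DOM, part A: at the position `k g` the weight of `k` dominates the term of `j`. -/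
def DomAStm : Prop :=
  ∀ (P : Polynomial ℝ) (S : Set ℤ) (κ : ℤ → ℝ) (k j : ℤ) (_ : k ∈ S) (_ : j ∈ S)
    (_ : κ k < κ j + ((j : ℝ) - k) ^ 2) (U μ : ℝ) (_ : 0 < μ),
    ∀ᶠ g : ℝ in atTop, ∀ u : ℝ, |u| ≤ U →
      |cw S κ g j * gw P (j * g - (k * g + u))| ≤ μ * cw S κ g k

/-- BEF-DOM, part B: behaviour at the two sides of a transition point `y` between `k` and `j`. -/
def DomBStm : Prop :=
  ∀ (P : Polynomial ℝ) (_ : P ≠ 0) (S : Set ℤ) (κ : ℤ → ℝ) (k j : ℤ) (_ : k ∈ S) (_ : j ∈ S)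
    (y : ℝ) (_ : (k : ℝ) < y) (_ : y < j) (_ : κ k + (k - y) ^ 2 = κ j + (j - y) ^ 2)
    (U : ℝ) (_ : 0 < U),
    ∀ᶠ g : ℝ in atTop,
      4 * |cw S κ g j * gw P (j * g - (y * g - U))| ≤ |cw S κ g k * gw P (k * g - (y * g - U))| ∧
      4 * |cw S κ g k * gw P (k * g - (y * g + U))| ≤ |cw S κ g j * gw P (j * g - (y * g + U))|

/-- BEF-TWO, part A: zeros of `a(x) + b(x) e^{-2π i θ d} + R(x, θ)` where `a` changes sign. -/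
def TwoAStm : Prop :=
  ∀ (a b : ℝ → ℝ) (R : ℝ × ℝ → ℂ) (x₁ x₂ : ℝ) (_ : x₁ < x₂) (_ : ContinuousOn a (Set.Icc x₁ x₂))
    (_ : ContinuousOn b (Set.Icc x₁ x₂)) (_ : ContinuousOn R (Set.Icc x₁ x₂ ×ˢ Set.univ))
    (_ : ∀ x ∈ Set.Icc x₁ x₂, b x ≠ 0)
    (_ : ∀ x ∈ Set.Icc x₁ x₂, ∀ θ, ‖R (x, θ)‖ ≤ |b x| / 4)
    (_ : 2 * |b x₁| ≤ |a x₁|) (_ : 2 * |b x₂| ≤ |a x₂|) (_ : a x₁ * a x₂ < 0)
    (d : ℤ) (_ : d ≠ 0) (r : ℤ),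
    ∃ x ∈ Set.Ioo x₁ x₂, ∃ θ : ℝ, |θ - r / (2 * |(d : ℝ)|)| < 1 / (4 * |(d : ℝ)|) ∧
      (a x : ℂ) + (b x : ℂ) * Complex.exp (-(2 * (Real.pi : ℂ) * Complex.I * ((θ : ℂ) * (d : ℂ)))) +
        R (x, θ) = 0

/-- BEF-TWO, part B: zeros of `a(x) + b(x) e^{-2π i θ d} + R(x, θ)` where `|a| / |b|` crosses the
value one and both functions have constant sign. -/
def TwoBStm : Prop :=
  ∀ (a b : ℝ → ℝ) (R : ℝ × ℝ → ℂ) (x₁ x₂ : ℝ) (_ : x₁ < x₂) (_ : ContinuousOn a (Set.Icc x₁ x₂))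
    (_ : ContinuousOn b (Set.Icc x₁ x₂)) (_ : ContinuousOn R (Set.Icc x₁ x₂ ×ˢ Set.univ))
    (_ : ∀ x ∈ Set.Icc x₁ x₂, a x ≠ 0) (_ : ∀ x ∈ Set.Icc x₁ x₂, b x ≠ 0)
    (_ : ∀ x ∈ Set.Icc x₁ x₂, ∀ θ, ‖R (x, θ)‖ ≤ |b x| / 4)
    (_ : 4 * |b x₁| ≤ |a x₁|) (_ : 4 * |a x₂| ≤ |b x₂|)
    (d : ℕ) (_ : d ≠ 0),
    ∃ φ : ℝ, ∀ r : ℤ, ∃ x ∈ Set.Ioo x₁ x₂, ∃ θ : ℝ, |θ - (r + φ) / (d : ℝ)| < 1 / (2 * (d : ℝ)) ∧
      (a x : ℂ) + (b x : ℂ) * Complex.exp (-(2 * (Real.pi : ℂ) * Complex.I * ((θ : ℂ) * (d : ℂ)))) +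
        R (x, θ) = 0

/-- BEF-COL, part A: for large `g` there are `2|j-k|` zeros of the transform near `k g` for every
sign change of the window, if `j` is the second strongest point at `k`. -/
def ColAStm : Prop :=
  ∀ (P : Polynomial ℝ) (_ : P ≠ 0) (S : Set ℤ) (κ : ℤ → ℝ) (_ : ∀ m, 0 ≤ κ m) (k j : ℤ)
    (_ : k ∈ S) (_ : j ∈ S) (_ : j ≠ k) (_ : κ k < κ j + ((j : ℝ) - k) ^ 2)
    (_ : ∀ l ∈ S, l ≠ k → l ≠ j → κ j + ((j : ℝ) - k) ^ 2 < κ l + ((l : ℝ) - k) ^ 2)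
    (p₁ p₂ : ℝ) (_ : p₁ < p₂) (_ : gw P p₁ * gw P p₂ < 0),
    ∀ᶠ g : ℝ in atTop, ∀ r : ℤ, ∃ v ∈ Set.Ioo p₁ p₂, ∃ θ : ℝ,
      |θ - r / (2 * |((j - k : ℤ) : ℝ)|)| < 1 / (4 * |((j - k : ℤ) : ℝ)|) ∧
        V (gw P) (cw S κ g) g (k * g - v) θ = 0

/-- BEF-COL, part B: for large `g` there are `j-k` zeros of the transform near a transition
point `y g` between neighbours `k` and `j`. -/
def ColBStm : Prop :=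
  ∀ (P : Polynomial ℝ) (_ : P ≠ 0) (S : Set ℤ) (κ : ℤ → ℝ) (_ : ∀ m, 0 ≤ κ m) (k j : ℤ)
    (_ : k ∈ S) (_ : j ∈ S) (y : ℝ) (_ : (k : ℝ) < y) (_ : y < j)
    (_ : κ k + ((k : ℝ) - y) ^ 2 = κ j + ((j : ℝ) - y) ^ 2)
    (_ : ∀ l ∈ S, l ≠ k → l ≠ j → κ j + ((j : ℝ) - y) ^ 2 < κ l + ((l : ℝ) - y) ^ 2),
    ∀ᶠ g : ℝ in atTop, ∃ φ : ℝ, ∀ r : ℤ, ∃ u ∈ Set.Ioo (-1 : ℝ) 1, ∃ θ : ℝ,
      |θ - (r + φ) / ((j - k : ℤ) : ℝ)| < 1 / (2 * ((j - k : ℤ) : ℝ)) ∧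
        V (gw P) (cw S κ g) g (y * g - u) θ = 0

/-- BEF-COUNT: columns of zeros give pairwise inequivalent zeros. -/
def CountStm : Prop :=
  ∀ (A : Type) [Fintype A] (q : ℕ) (_ : 0 < q) (y : A → ℝ) (_ : ∀ a, 0 ≤ y a ∧ y a < q)
    (lo hi : A → ℝ)
    (_ : ∀ a b : A, a ≠ b → y a = y b → Disjoint (Set.Ioo (lo a) (hi a)) (Set.Ioo (lo b) (hi b)))
    (N : A → ℕ) (Z : ℝ → ℝ → ℝ → Prop)
    (_ : ∀ a, ∀ᶠ g : ℝ in atTop, ∃ φ : ℝ, ∀ r : ℤ, ∃ v ∈ Set.Ioo (lo a) (hi a), ∃ θ : ℝ,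
      |θ - (r + φ) / (N a : ℝ)| < 1 / (2 * (N a : ℝ)) ∧ Z g (y a * g - v) θ),
    ∀ᶠ g : ℝ in atTop, ∃ x θ : (Σ a : A, Fin (N a)) → ℝ, (∀ i, Z g (x i) (θ i)) ∧
      ∀ i j, i ≠ j → ∀ k l : ℤ, x i - x j = k * (q * g) → θ i - θ j = l → False

/-- The period of the comb. -/
def qq (b : ℕ) : ℕ := 2 * b ^ 2 + 2 * b + 1

/-- The support of the comb. -/
def SS (b : ℕ) : Set ℤ :=
  {m | m % (qq b : ℤ) = 0 ∨ m % (qq b : ℤ) = (b : ℤ) ^ 2 ∨ m % (qq b : ℤ) = (b : ℤ) ^ 2 + 2 * b}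

/-- The exponents of the weights. -/
noncomputable def kap (b : ℕ) (m : ℤ) : ℝ := if m % (qq b : ℤ) = 0 then 0 else (b : ℝ) ^ 4 - 1 / 2

/-- At the place `y`, the point `j` is stronger than all points except perhaps `k`. -/
def Sec (S : Set ℤ) (κ : ℤ → ℝ) (y : ℝ) (k j : ℤ) : Prop :=
  k ∈ S ∧ j ∈ S ∧ ∀ l ∈ S, l ≠ k → l ≠ j → κ j + ((j : ℝ) - y) ^ 2 < κ l + ((l : ℝ) - y) ^ 2

/-- `y` is a transition point between the neighbours `k` and `j`. -/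
def Trans (S : Set ℤ) (κ : ℤ → ℝ) (y : ℝ) (k j : ℤ) : Prop :=
  Sec S κ y k j ∧ (k : ℝ) < y ∧ y < j ∧ κ k + ((k : ℝ) - y) ^ 2 = κ j + ((j : ℝ) - y) ^ 2

/-- BEF-CONF: the properties of the explicit comb. -/
def ConfStm : Prop :=
  ∀ b : ℕ, 1 ≤ b →
    (Sec (SS b) (kap b) 0 0 ((b : ℤ) ^ 2) ∧
      kap b 0 < kap b ((b : ℤ) ^ 2) + ((b : ℝ) ^ 2 - 0) ^ 2) ∧
    (Sec (SS b) (kap b) ((b : ℝ) ^ 2) ((b : ℤ) ^ 2) 0 ∧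
      kap b ((b : ℤ) ^ 2) < kap b 0 + (0 - (b : ℝ) ^ 2) ^ 2) ∧
    (Sec (SS b) (kap b) ((b : ℝ) ^ 2 + 2 * b) ((b : ℤ) ^ 2 + 2 * b) (qq b) ∧
      kap b ((b : ℤ) ^ 2 + 2 * b) <
        kap b (qq b) + (((qq b : ℕ) : ℝ) - ((b : ℝ) ^ 2 + 2 * b)) ^ 2) ∧
    (∃ y : ℝ, Trans (SS b) (kap b) y 0 ((b : ℤ) ^ 2)) ∧
    (∃ y : ℝ, Trans (SS b) (kap b) y ((b : ℤ) ^ 2) ((b : ℤ) ^ 2 + 2 * b)) ∧
    (∃ y : ℝ, Trans (SS b) (kap b) y ((b : ℤ) ^ 2 + 2 * b) (qq b))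

end Pool.Agent.Y934.BEF
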