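import Mathlib
import Pool.Agent.Y934.BEF.Stm
import Pool.Agent.H321R3.HermFun

set_option autoImplicit false

namespace Pool.Agent.Y934.BEF

open Filter Topology Pool.Agent.H321R3.Herm

lemma cw_zero (b : ℕ) (g : ℝ) : cw (SS b) (kap b) g 0 = 1 := by
  unfold cw
  rw [Set.indicator_of_mem]
  · simp [kap]
  · simp [SS]

lemma cw_nonneg (S : Set ℤ) (κ : ℤ → ℝ) (g : ℝ) (m : ℤ) : 0 ≤ cw S κ g m :=
  Set.indicator_nonneg (fun _ _ => (Real.exp_pos _).le) m

lemma cw_periodic (b : ℕ) (g : ℝ) (m : ℤ) :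
    cw (SS b) (kap b) g (m + qq b) = cw (SS b) (kap b) g m := by
  unfold cw
  have h1 : (m + (qq b : ℤ)) % (qq b : ℤ) = m % (qq b : ℤ) := by simp
  have h2 : (m + (qq b : ℤ)) ∈ SS b ↔ m ∈ SS b := by simp only [SS, Set.mem_ofPred_eq, h1]
  have h3 : kap b (m + (qq b : ℤ)) = kap b m := by simp only [kap, h1]
  by_cases h : m ∈ SS b
  · rw [Set.indicator_of_mem h, Set.indicator_of_mem (h2.2 h), h3]
  · rw [Set.indicator_of_notMem h, Set.indicator_of_notMem (fun h' => h (h2.1 h'))]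

lemma kap_nonneg (b : ℕ) (hb : 1 ≤ b) (m : ℤ) : 0 ≤ kap b m := by
  unfold kap
  split_ifs
  · exact le_rfl
  · have h1 : (1 : ℝ) ≤ b := by exact_mod_cast hb
    have h2 : (1 : ℝ) ≤ (b : ℝ) ^ 4 := one_le_pow₀ h1
    linarith

/-- The limit of the densities. -/
lemma density_limit (n : ℕ) (D : ℝ) (hD : D < 3 * (n : ℝ) + 1) : ∃ b : ℕ, 1 ≤ b ∧
    D * ((qq b : ℕ) : ℝ) < (n : ℝ) * (6 * (b : ℝ) ^ 2 + 2) + ((qq b : ℕ) : ℝ) := by
  have h : ∀ b : ℕ, ((qq b : ℕ) : ℝ) = 2 * (b : ℝ) ^ 2 + 2 * b + 1 := by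
    intro b
    unfold qq
    push_cast
    ring
  set e : ℝ := 3 * (n : ℝ) + 1 - D with he
  have he0 : 0 < e := by linarith
  obtain ⟨b, hb⟩ := exists_nat_gt (3 * (n : ℝ) / e + 1 + n)
  have h1 : 0 ≤ 3 * (n : ℝ) / e := by positivity
  have hn : (0 : ℝ) ≤ n := Nat.cast_nonneg n
  have hb1 : (1 : ℝ) < b := by linarith
  refine ⟨b, by exact_mod_cast hb1.le, ?_⟩
  rw [h]
  have h2 : 3 * (n : ℝ) < e * b := by
    have h3 : 3 * (n : ℝ) / e < b := by linarith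
    rw [div_lt_iff₀ he0] at h3
    linarith
  have h4 : D = 3 * (n : ℝ) + 1 - e := by rw [he]; ring
  rw [h4]
  nlinarith [mul_pos he0 (by linarith : (0 : ℝ) < b), mul_nonneg hn (by linarith : (0 : ℝ) ≤ b)]

/-- The columns of zeros. -/
abbrev Col (n : ℕ) : Type := (Fin 3 × Fin n) ⊕ Fin 3

/-- Numbers of zeros in the columns. -/
def NN (n b : ℕ) : Col n → ℕ
  | Sum.inl (c, _) => ![2 * b ^ 2, 2 * b ^ 2, 2 * (b ^ 2 + 1)] c
  | Sum.inr c => ![b ^ 2, 2 * b, b ^ 2 + 1] c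

/-- Positions of the columns. -/
noncomputable def yy (n b : ℕ) (t : Fin 3 → ℝ) : Col n → ℝ
  | Sum.inl (c, _) => ![0, (b : ℝ) ^ 2, (b : ℝ) ^ 2 + 2 * b] c
  | Sum.inr c => t c

/-- Left ends. -/
def lo (n : ℕ) (p : ℕ → ℝ) : Col n → ℝ
  | Sum.inl (_, i) => p i
  | Sum.inr _ => -1

/-- Right ends. -/
def hi (n : ℕ) (p : ℕ → ℝ) : Col n → ℝ
  | Sum.inl (_, i) => p (i + 1)
  | Sum.inr _ => 1

lemma card_col (n b : ℕ) : Fintype.card (Σ a : Col n, Fin (NN n b a)) =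
    n * (6 * b ^ 2 + 2) + qq b := by
  rw [Fintype.card_sigma]
  have h : ∑ a : Col n, Fintype.card (Fin (NN n b a)) = ∑ a : Col n, NN n b a :=
    Finset.sum_congr rfl fun a _ => Fintype.card_fin _
  refine h.trans ?_
  simp only [Fintype.sum_sum_type, Fintype.sum_prod_type, NN, Fin.sum_univ_three,
    Matrix.cons_val_zero, Matrix.cons_val_one, Matrix.cons_val, Finset.sum_const,
    Finset.card_univ, Fintype.card_fin, smul_eq_mul, qq]
  ring

/-- The densities up to `3n+1`, from the parts of the proof. -/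
theorem main (nf : NFStm) (dens : DensStm) (colA : ColAStm) (colB : ColBStm) (conf : ConfStm)
    (count : CountStm) (n : ℕ) (D : ℝ) (hD : D < 3 * (n : ℝ) + 1) :
    ∃ (A B : ℝ) (N : ℕ) (x ω : Fin N → ℝ), 0 < A ∧ 0 < B ∧ IsSeparatedSet (cos2 A B x ω) ∧
      lowerBeurlingDensity (cos2 A B x ω) = (N : ℝ) / (A * B) ∧
      D < lowerBeurlingDensity (cos2 A B x ω) ∧
      ¬ IsGaborFrame (fun t => ((hermiteFun n t : ℝ) : ℂ)) (cos2 A B x ω) := by
  obtain ⟨b, hb, hbD⟩ := density_limit n D hD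
  obtain ⟨P, hP⟩ := hermiteFun_poly n
  have hgw : gw P = hermiteFun n := by
    funext t
    rw [hP]
    rfl
  obtain ⟨p, σ, hp, hs⟩ := hermiteFun_sign n
  have hP0 : P ≠ 0 := by
    rintro rfl
    have h := hs 0 (Nat.zero_le _)
    rw [hP] at h
    simp at h
  have hpp : ∀ i : Fin n, gw P (p i) * gw P (p (i + 1)) < 0 := by
    intro i
    rw [hgw]
    have h1 := hs i i.2.le
    have h2 := hs (i + 1) i.2
    have h3 := mul_pos h1 h2
    have h4 : σ * (-1) ^ (i : ℕ) * hermiteFun n (p i) *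
        (σ * (-1) ^ ((i : ℕ) + 1) * hermiteFun n (p (i + 1))) =
        -(σ ^ 2 * (((-1 : ℝ) ^ (i : ℕ)) ^ 2) * (hermiteFun n (p i) * hermiteFun n (p (i + 1)))) := by
      ring
    rw [h4, ← pow_mul, mul_comm (i : ℕ) 2, pow_mul] at h3
    norm_num at h3
    by_contra h5
    push Not at h5
    have := mul_nonneg (sq_nonneg σ) h5
    linarith
  have hb1 : (1 : ℝ) ≤ b := by exact_mod_cast hb
  have hq : ((qq b : ℕ) : ℝ) = 2 * (b : ℝ) ^ 2 + 2 * b + 1 := by
    unfold qq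
    push_cast
    ring
  have hq0 : 0 < qq b := by unfold qq; omega
  obtain ⟨⟨c1, c1'⟩, ⟨c2, c2'⟩, ⟨c3, c3'⟩, ⟨y1, t1⟩, ⟨y2, t2⟩, ⟨y3, t3⟩⟩ := conf b hb
  -- the columns
  have hkap := kap_nonneg b hb
  have colA' : ∀ (k j : ℤ) (y : ℝ) (N : ℕ), y = k → j ≠ k → (N : ℝ) = 2 * |((j - k : ℤ) : ℝ)| →
      Sec (SS b) (kap b) y k j → kap b k < kap b j + ((j : ℝ) - k) ^ 2 → ∀ i : Fin n,
      ∀ᶠ g : ℝ in atTop, ∃ φ : ℝ, ∀ r : ℤ, ∃ v ∈ Set.Ioo (p i) (p (i + 1)), ∃ θ : ℝ,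
        |θ - (r + φ) / (N : ℝ)| < 1 / (2 * (N : ℝ)) ∧
          V (gw P) (cw (SS b) (kap b) g) g (y * g - v) θ = 0 := by
    rintro k j y N rfl hjk hN ⟨hk, hj, hl⟩ hkj i
    filter_upwards [colA P hP0 (SS b) (kap b) hkap k j hk hj hjk hkj hl (p i) (p (i + 1))
      (hp i i.2) (hpp i)] with g hg
    refine ⟨0, fun r => ?_⟩
    obtain ⟨v, hv, θ, hθ, hz⟩ := hg r
    refine ⟨v, hv, θ, ?_, hz⟩
    rw [hN, add_zero]
    rw [show (2 * (2 * |((j - k : ℤ) : ℝ)|) : ℝ) = 4 * |((j - k : ℤ) : ℝ)| by ring]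
    exact hθ
  have colB' : ∀ (k j : ℤ) (y : ℝ) (N : ℕ), (N : ℝ) = ((j - k : ℤ) : ℝ) →
      Trans (SS b) (kap b) y k j →
      ∀ᶠ g : ℝ in atTop, ∃ φ : ℝ, ∀ r : ℤ, ∃ v ∈ Set.Ioo (-1 : ℝ) 1, ∃ θ : ℝ,
        |θ - (r + φ) / (N : ℝ)| < 1 / (2 * (N : ℝ)) ∧
          V (gw P) (cw (SS b) (kap b) g) g (y * g - v) θ = 0 := by
    rintro k j y N hN ⟨⟨hk, hj, hl⟩, h1, h2, h3⟩
    rw [hN]
    exact colB P hP0 (SS b) (kap b) hkap k j hk hj y h1 h2 h3 hl
  have hb2 : (1 : ℝ) ≤ (b : ℝ) ^ 2 := one_le_pow₀ hb1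
  have e1 : ((((b : ℤ) ^ 2 : ℤ)) : ℝ) = (b : ℝ) ^ 2 := by push_cast; ring
  have e2 : (((b : ℤ) ^ 2 + 2 * b : ℤ) : ℝ) = (b : ℝ) ^ 2 + 2 * b := by push_cast; ring
  have e3 : (((qq b : ℕ) : ℤ) : ℝ) = ((qq b : ℕ) : ℝ) := by push_cast; ring
  have hz2 : (1 : ℤ) ≤ (b : ℤ) ^ 2 := by
    have : (1 : ℤ) ≤ b := by exact_mod_cast hb
    exact one_le_pow₀ this
  set t : Fin 3 → ℝ := ![y1, y2, y3] with ht
  have hcols : ∀ a : Col n, ∀ᶠ g : ℝ in atTop, ∃ φ : ℝ, ∀ r : ℤ,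
      ∃ v ∈ Set.Ioo (lo n p a) (hi n p a), ∃ θ : ℝ,
      |θ - (r + φ) / (NN n b a : ℝ)| < 1 / (2 * (NN n b a : ℝ)) ∧
        V (gw P) (cw (SS b) (kap b) g) g (yy n b t a * g - v) θ = 0 := by
    intro a
    rcases a with ⟨c, i⟩ | c
    · fin_cases c
      · refine colA' 0 ((b : ℤ) ^ 2) 0 _ (by simp) (by omega) ?_ c1 ?_ i
        · simp [NN]
        · rw [e1, Int.cast_zero]
          exact c1'
      · refine colA' ((b : ℤ) ^ 2) 0 ((b : ℝ) ^ 2) _ e1.symm (by omega) ?_ c2 ?_ i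
        · simp [NN]
        · rw [e1, Int.cast_zero]
          exact c2'
      · refine colA' ((b : ℤ) ^ 2 + 2 * b) (qq b) ((b : ℝ) ^ 2 + 2 * b) _ e2.symm ?_ ?_ c3 ?_ i
        · have : (qq b : ℤ) = 2 * (b : ℤ) ^ 2 + 2 * b + 1 := by unfold qq; push_cast; ring
          omega
        · simp only [NN]
          have h5 : ((((qq b : ℕ) : ℤ) - ((b : ℤ) ^ 2 + 2 * b) : ℤ) : ℝ) = (b : ℝ) ^ 2 + 1 := by
            push_cast
            rw [hq]
            ring
          rw [h5, abs_of_nonneg (by positivity)]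
          simp
        · rw [e2, e3]
          exact c3'
    · fin_cases c
      · refine colB' 0 ((b : ℤ) ^ 2) y1 _ ?_ t1
        simp [NN]
      · refine colB' ((b : ℤ) ^ 2) ((b : ℤ) ^ 2 + 2 * b) y2 _ ?_ t2
        simp [NN]
      · refine colB' ((b : ℤ) ^ 2 + 2 * b) (qq b) y3 _ ?_ t3
        rw [show (((qq b : ℤ) - ((b : ℤ) ^ 2 + 2 * b) : ℤ) : ℝ) = (b : ℝ) ^ 2 + 1 by
          push_cast
          rw [hq]
          ring]
        simp [NN]
  have hy1 := t1.2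
  have hy2 := t2.2
  have hy3 := t3.2
  rw [e1, Int.cast_zero] at hy1
  rw [e1, e2] at hy2
  rw [e2, e3] at hy3
  have f1 : 0 < y1 := hy1.1
  have f2 : y1 < (b : ℝ) ^ 2 := hy1.2.1
  have f3 : (b : ℝ) ^ 2 < y2 := hy2.1
  have f4 : y2 < (b : ℝ) ^ 2 + 2 * b := hy2.2.1
  have f5 : (b : ℝ) ^ 2 + 2 * b < y3 := hy3.1
  have f6 : y3 < 2 * (b : ℝ) ^ 2 + 2 * b + 1 := by rw [← hq]; exact hy3.2.1
  clear hy1 hy2 hy3 t1 t2 t3 c1 c1' c2 c2' c3 c3' e1 e2 e3 hz2
  have hyb : ∀ a : Col n, 0 ≤ yy n b t a ∧ yy n b t a < (qq b : ℕ) := by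
    intro a
    rw [hq]
    rcases a with ⟨c, i⟩ | c
    · fin_cases c
      · simp only [yy, Fin.zero_eta, Matrix.cons_val_zero]
        exact ⟨le_rfl, by linarith⟩
      · simp only [yy, Fin.mk_one, Matrix.cons_val_one, Matrix.cons_val_zero]
        exact ⟨by linarith, by linarith⟩
      · simp only [yy, Fin.reduceFinMk, Matrix.cons_val]
        exact ⟨by linarith, by linarith⟩
    · fin_cases c
      · simp only [yy, Fin.zero_eta, ht, Matrix.cons_val_zero]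
        exact ⟨by linarith, by linarith⟩
      · simp only [yy, Fin.mk_one, ht, Matrix.cons_val_one, Matrix.cons_val_zero]
        exact ⟨by linarith, by linarith⟩
      · simp only [yy, Fin.reduceFinMk, ht, Matrix.cons_val]
        exact ⟨by linarith, by linarith⟩
  have hpmono : ∀ i j : ℕ, i ≤ j → j ≤ n → p i ≤ p j := by
    intro i j hij
    induction j, hij using Nat.le_induction with
    | base => intro _; exact le_rfl
    | succ j hij ih =>
      intro hj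
      exact (ih (by omega)).trans (hp j (by omega)).le
  have hdis : ∀ i j : Fin n, i ≠ j →
      Disjoint (Set.Ioo (p i) (p (i + 1))) (Set.Ioo (p j) (p (j + 1))) := by
    intro i j hij
    rw [Set.disjoint_left]
    rintro v ⟨h1, h2⟩ ⟨h3, h4⟩
    rcases lt_or_gt_of_ne hij with h | h
    · have h5 := hpmono (i + 1) j (by exact_mod_cast h) j.2.le
      linarith
    · have h5 := hpmono (j + 1) i (by exact_mod_cast h) i.2.le
      linarith
  have hdisj : ∀ a a' : Col n, a ≠ a' → yy n b t a = yy n b t a' →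
      Disjoint (Set.Ioo (lo n p a) (hi n p a)) (Set.Ioo (lo n p a') (hi n p a')) := by
    intro a a' hne hy
    rcases a with ⟨c, i⟩ | c <;> rcases a' with ⟨c', i'⟩ | c'
    · have hc : c = c' := by
        fin_cases c <;> fin_cases c' <;>
          simp only [yy, Fin.zero_eta, Fin.mk_one, Fin.reduceFinMk, Matrix.cons_val_zero,
            Matrix.cons_val_one, Matrix.cons_val] at hy ⊢ <;> exfalso <;> linarith
      subst hc
      exact hdis i i' (fun h => hne (by rw [h]))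
    · exfalso
      fin_cases c <;> fin_cases c' <;>
        simp only [yy, ht, Fin.zero_eta, Fin.mk_one, Fin.reduceFinMk, Matrix.cons_val_zero,
          Matrix.cons_val_one, Matrix.cons_val] at hy <;> linarith
    · exfalso
      fin_cases c <;> fin_cases c' <;>
        simp only [yy, ht, Fin.zero_eta, Fin.mk_one, Fin.reduceFinMk, Matrix.cons_val_zero,
          Matrix.cons_val_one, Matrix.cons_val] at hy <;> linarith
    · have hc : c = c' := by
        fin_cases c <;> fin_cases c' <;>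
          simp only [yy, ht, Fin.zero_eta, Fin.mk_one, Fin.reduceFinMk, Matrix.cons_val_zero,
            Matrix.cons_val_one, Matrix.cons_val] at hy ⊢ <;> exfalso <;> linarith
      exact absurd (by rw [hc]) hne
  obtain ⟨g, ⟨x, θ, hz, hinj⟩, hg⟩ := ((count (Col n) (qq b) hq0 (yy n b t) hyb (lo n p) (hi n p)
    hdisj (NN n b) (fun g x θ => V (gw P) (cw (SS b) (kap b) g) g x θ = 0) hcols).and
    (eventually_gt_atTop (0 : ℝ))).exists
  obtain ⟨e⟩ : Nonempty (Fin (Fintype.card (Σ a : Col n, Fin (NN n b a))) ≃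
      (Σ a : Col n, Fin (NN n b a))) := ⟨(Fintype.equivFin _).symm⟩
  have hgne : g ≠ 0 := hg.ne'
  have hdn := dens (Fin (Fintype.card (Σ a : Col n, Fin (NN n b a)))) (qq b * g) (1 / g)
    (by have : (0 : ℝ) < (qq b : ℕ) := by exact_mod_cast hq0
        positivity) (by positivity) (fun i => x (e i)) (fun i => θ (e i) / g) (by
      intro i j hij k l h1 h2
      refine hinj (e i) (e j) (fun h => hij (e.injective h)) k l h1 ?_
      have h3 : (θ (e i) - θ (e j)) / g = l * (1 / g) := by rw [← h2]; ring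
      field_simp at h3
      exact h3)
  obtain ⟨hsep, hden⟩ := hdn
  rw [Fintype.card_fin] at hden
  have hqpos : (0 : ℝ) < (qq b : ℕ) := by exact_mod_cast hq0
  refine ⟨qq b * g, 1 / g, Fintype.card (Σ a : Col n, Fin (NN n b a)), fun i => x (e i), fun i => θ (e i) / g, by positivity,
    by positivity, hsep, hden, ?_, ?_⟩
  · rw [hden, card_col]
    have h6 : ((qq b : ℕ) : ℝ) * g * (1 / g) = ((qq b : ℕ) : ℝ) := by field_simp
    rw [h6, lt_div_iff₀ hqpos]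
    refine hbD.trans_le (le_of_eq ?_)
    push_cast
    ring
  · obtain ⟨C, hC0, hC⟩ := hermiteFun_decay n
    refine nf (Fin (Fintype.card (Σ a : Col n, Fin (NN n b a)))) (hermiteFun n) (hermiteFun_continuous n) C hC g hg (qq b) hq0
      (cw (SS b) (kap b) g) (cw_periodic b g) (cw_nonneg _ _ _) (cw_zero b g) _ _ ?_
    intro i
    have h7 : θ (e i) / g * g = θ (e i) := by field_simp
    rw [h7, ← hgw]
    exact hz (e i)

end Pool.Agent.Y934.BEF
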